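import Mathlib
import Pool.Agent.Grass.Inv

namespace Pool.Agent.Results.MP_ca14f8_co.Grassmannian

open Pool.Agent.Grass

/-- The Morales–Pak–Panova inequality `Υ_{w ⊗ 1^k} ≥ Υ_w ^ (k²)` holds for every `k` and every
Grassmannian or inverse Grassmannian permutation `w`. -/
theorem result :
    ∀ (n d k : ℕ) (w : Equiv.Perm (Fin n)), d ≤ n → (IsGr d w ∨ IsGr d w⁻¹) →
      Upsilon (n * k) (kron w k) ≥ Upsilon n w ^ (k ^ 2) := by
  rintro n d k w hd (hw | hw)
  · exact grassmannian hd hw k
  · have h := grassmannian hd hw k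
    rwa [kron_inv, Upsilon_inv, Upsilon_inv] at h

end Pool.Agent.Results.MP_ca14f8_co.Grassmannian
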